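import Pool.Agent.Helper85.LN2.Goals

/-!
# MP_d0c558_al, project LN2, goal AM1: a Følner set with many elements in one coset
-/

namespace Pool.Agent.Helper37.LN2

open Pool.Agent.Helper85.LN Pool.Agent.Helper85.LN2

variable {m d : ℕ} (A : Auto (Fin m) (Fin d))

/-- `z'` is the image of `z` under the element `s`. -/
def Mv (s : Equiv.Perm (List (Fin d))) (z z' : Fin d × Equiv.Perm (List (Fin d))) : Prop :=
  ∀ w, s (z.1 :: w) = z'.1 :: (z'.2 * z.2⁻¹) w

theorem Mv.refl (z : Fin d × Equiv.Perm (List (Fin d))) : Mv 1 z z := by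
  intro w
  simp

theorem Mv.symm {s : Equiv.Perm (List (Fin d))} {z z' : Fin d × Equiv.Perm (List (Fin d))}
    (h : Mv s z z') : Mv s⁻¹ z' z := by
  intro w
  rw [Equiv.Perm.inv_eq_iff_eq, h]
  simp

theorem Mv.trans {s s' : Equiv.Perm (List (Fin d))} {z z' z'' : Fin d × Equiv.Perm (List (Fin d))}
    (h : Mv s z z') (h' : Mv s' z' z'') : Mv (s' * s) z z'' := by
  intro w
  rw [Equiv.Perm.mul_apply, h, h']
  simp

/-- the orbit relation -/
def orb : Setoid (Fin d × Equiv.Perm (List (Fin d))) where
  r z z' := ∃ s ∈ A.G, Mv s z z'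
  iseqv :=
    { refl := fun z => ⟨1, A.G.one_mem, Mv.refl z⟩
      symm := fun ⟨s, hs, h⟩ => ⟨s⁻¹, A.G.inv_mem hs, h.symm⟩
      trans := fun ⟨s, hs, h⟩ ⟨s', hs', h'⟩ => ⟨s' * s, A.G.mul_mem hs' hs, h.trans h'⟩ }

/-- the action of a generator on pairs -/
def tq (q : Fin m) (z : Fin d × Equiv.Perm (List (Fin d))) : Fin d × Equiv.Perm (List (Fin d)) :=
  (A.out q z.1, A.perm (A.tr q z.1) * z.2)

theorem mv_tq (q : Fin m) (z : Fin d × Equiv.Perm (List (Fin d))) : Mv (A.perm q) z (tq A q z) := by
  intro w
  rw [A.perm_cons]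
  simp [tq]

theorem perm_mem (q : Fin m) : A.perm q ∈ A.G := Subgroup.subset_closure ⟨q, rfl⟩

/-- uniqueness -/
theorem mv_unique (hLN : A.LN) {s s' : Equiv.Perm (List (Fin d))} (hs : s ∈ A.G) (hs' : s' ∈ A.G)
    {z z' : Fin d × Equiv.Perm (List (Fin d))} (h : Mv s z z') (h' : Mv s' z z') : s = s' := by
  have h1 : s'⁻¹ * s = 1 := by
    apply hLN _ (A.G.mul_mem (A.G.inv_mem hs') hs) [z.1]
    intro w
    rw [List.singleton_append, Equiv.Perm.mul_apply, h w, Equiv.Perm.inv_eq_iff_eq, h' w]
  exact (inv_mul_eq_one.1 h1).symm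

theorem mv_inj {s : Equiv.Perm (List (Fin d))} {z z' z'' : Fin d × Equiv.Perm (List (Fin d))}
    (h : Mv s z z') (h' : Mv s z z'') : z' = z'' := by
  have h1 : ∀ w, z'.1 :: (z'.2 * z.2⁻¹) w = z''.1 :: (z''.2 * z.2⁻¹) w := fun w => by
    rw [← h w, ← h' w]
  have e1 : z'.1 = z''.1 := (List.cons.inj (h1 [])).1
  have e2 : z'.2 * z.2⁻¹ = z''.2 * z.2⁻¹ := by
    ext1 w
    exact (List.cons.inj (h1 w)).2
  exact Prod.ext e1 (mul_right_cancel e2)

open Classical in
/-- weighted boundary -/
noncomputable def bd (ω : Fin m → ℝ) (F : Finset (Equiv.Perm (List (Fin d)))) : ℝ :=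
  ∑ q, ω q * ((F.filter fun g => A.perm q * g ∉ F).card : ℝ)

open Classical in
theorem am1 : S_AM1 := by
  intro m d A ω hd hLN hω hst hAm N
  -- the constant
  obtain ⟨ε, hε, hεω⟩ : ∃ ε : ℝ, 0 < ε ∧ ∀ q, (N : ℝ) * ε ≤ ω q := by
    have hS : ∀ q, ((N : ℝ) + 1) / ω q ≤ ∑ q, ((N : ℝ) + 1) / ω q := by
      intro q
      apply Finset.single_le_sum (f := fun q => ((N : ℝ) + 1) / ω q) _ (Finset.mem_univ q)
      intro i _
      have := hω i
      positivity
    have hS0 : 0 ≤ ∑ q, ((N : ℝ) + 1) / ω q := by
      apply Finset.sum_nonneg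
      intro i _
      have := hω i
      positivity
    refine ⟨1 / (∑ q, ((N : ℝ) + 1) / ω q + 1), by positivity, fun q => ?_⟩
    have h1 : ((N : ℝ) + 1) / ω q ≤ ∑ q, ((N : ℝ) + 1) / ω q + 1 := by linarith [hS q]
    have h2 : 0 < ∑ q, ((N : ℝ) + 1) / ω q + 1 := by linarith
    rw [div_le_iff₀ (hω q)] at h1
    rw [mul_one_div, div_le_iff₀ h2]
    linarith [mul_comm (ω q) (∑ q, ((N : ℝ) + 1) / ω q + 1)]
  -- existence of sets with small boundary
  have hex : ∃ n : ℕ, ∃ F : Finset (Equiv.Perm (List (Fin d))), F.Nonempty ∧ (∀ g ∈ F, g ∈ A.G) ∧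
      bd A ω F ≤ ε * F.card ∧ F.card = n := by
    obtain ⟨K, hK⟩ := exists_nat_ge ((∑ q, ω q) / ε)
    obtain ⟨F, hF, hFG, hFb⟩ := hAm (K + 1)
    refine ⟨F.card, F, hF, hFG, ?_, rfl⟩
    have h1 : bd A ω F * ((K : ℝ) + 1) ≤ (∑ q, ω q) * F.card := by
      rw [bd, Finset.sum_mul, Finset.sum_mul]
      apply Finset.sum_le_sum
      intro q _
      have h2 : (((K + 1) * (F.filter fun g => A.perm q * g ∉ F).card : ℕ) : ℝ) ≤ (F.card : ℝ) := by
        exact_mod_cast hFb q
      push_cast at h2
      have h3 := mul_le_mul_of_nonneg_left h2 (hω q).le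
      linarith
    have h4 : (∑ q, ω q) ≤ ε * ((K : ℝ) + 1) := by
      have := (div_le_iff₀ hε).1 hK
      nlinarith
    have h5 : (∑ q, ω q) * (F.card : ℝ) ≤ ε * ((K : ℝ) + 1) * F.card :=
      mul_le_mul_of_nonneg_right h4 (Nat.cast_nonneg _)
    have h6 : 0 < (K : ℝ) + 1 := by positivity
    have h7 : bd A ω F * ((K : ℝ) + 1) ≤ (ε * F.card) * ((K : ℝ) + 1) := by linarith
    exact le_of_mul_le_mul_right h7 h6
  obtain ⟨F, hF, hFG, hFb, hFn⟩ := Nat.find_spec hex
  have hmin : ∀ F' : Finset (Equiv.Perm (List (Fin d))), F'.Nonempty → (∀ g ∈ F', g ∈ A.G) →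
      bd A ω F' ≤ ε * F'.card → F.card ≤ F'.card := by
    intro F' h1 h2 h3
    rw [hFn]
    exact Nat.find_min' hex ⟨F', h1, h2, h3, rfl⟩
  refine ⟨F, hF, hFG, fun q => ?_, ?_⟩
  · -- the boundary
    have h1 : ω q * ((F.filter fun g => A.perm q * g ∉ F).card : ℝ) ≤ bd A ω F := by
      apply Finset.single_le_sum
        (f := fun q => ω q * ((F.filter fun g => A.perm q * g ∉ F).card : ℝ)) _ (Finset.mem_univ q)
      intro i _
      have := hω i
      positivity
    have h2 : (N : ℝ) * ((F.filter fun g => A.perm q * g ∉ F).card : ℝ) ≤ F.card := by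
      have h3 : ω q * ((N : ℝ) * ((F.filter fun g => A.perm q * g ∉ F).card : ℝ)) ≤ ω q * F.card := by
        have h4 : (N : ℝ) * (ω q * ((F.filter fun g => A.perm q * g ∉ F).card : ℝ)) ≤
            (N : ℝ) * (ε * F.card) := mul_le_mul_of_nonneg_left (h1.trans hFb) (Nat.cast_nonneg _)
        have h5 : (N : ℝ) * ε * F.card ≤ ω q * F.card :=
          mul_le_mul_of_nonneg_right (hεω q) (Nat.cast_nonneg _)
        linarith
      exact le_of_mul_le_mul_left h3 (hω q)
    exact_mod_cast h2
  · -- the coset
    set FF : Finset (Fin d × Equiv.Perm (List (Fin d))) := Finset.univ ×ˢ F with hFF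
    have hFFmem : ∀ z, z ∈ FF ↔ z.2 ∈ F := fun z => by simp [hFF]
    have hFFcard : FF.card = d * F.card := by simp [hFF]
    have hFFne : FF.Nonempty := by
      obtain ⟨g, hg⟩ := hF
      exact ⟨(⟨0, hd⟩, g), (hFFmem _).2 hg⟩
    -- boundary of the product
    have hbd : ∑ q, ω q * ((FF.filter fun z => tq A q z ∉ FF).card : ℝ) = d * bd A ω F := by
      have h1 : ∀ q, ((FF.filter fun z => tq A q z ∉ FF).card : ℝ) =
          ∑ x : Fin d, ((F.filter fun g => A.perm (A.tr q x) * g ∉ F).card : ℝ) := by
        intro q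
        have e : (FF.filter fun z => tq A q z ∉ FF).card =
            ∑ x : Fin d, (F.filter fun g => A.perm (A.tr q x) * g ∉ F).card := by
          rw [Finset.card_filter, hFF, Finset.sum_product]
          apply Finset.sum_congr rfl
          intro x _
          rw [Finset.card_filter]
          apply Finset.sum_congr rfl
          intro g _
          simp [tq]
        rw [e]
        push_cast
        rfl
      calc ∑ q, ω q * ((FF.filter fun z => tq A q z ∉ FF).card : ℝ)
          = ∑ q, ∑ x : Fin d, ω q * ((F.filter fun g => A.perm (A.tr q x) * g ∉ F).card : ℝ) := by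
            apply Finset.sum_congr rfl
            intro q _
            rw [h1, Finset.mul_sum]
        _ = ∑ q, ∑ x : Fin d, ∑ q', (if A.tr q x = q' then ω q else 0) *
              ((F.filter fun g => A.perm q' * g ∉ F).card : ℝ) := by
            apply Finset.sum_congr rfl
            intro q _
            apply Finset.sum_congr rfl
            intro x _
            simp [ite_mul]
        _ = ∑ q', (∑ q, ∑ x, if A.tr q x = q' then ω q else 0) *
              ((F.filter fun g => A.perm q' * g ∉ F).card : ℝ) := by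
            simp_rw [Finset.sum_mul]
            rw [Finset.sum_comm' (s := Finset.univ) (t := fun _ => Finset.univ) (t' := Finset.univ)
              (s' := fun _ => Finset.univ) (by simp)]
            rw [Finset.sum_comm]
            conv_rhs => rw [Finset.sum_comm]
            apply Finset.sum_congr rfl
            intro q _
            rw [Finset.sum_comm]
        _ = d * bd A ω F := by
            rw [bd, Finset.mul_sum]
            apply Finset.sum_congr rfl
            intro q' _
            rw [hst q']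
            ring
    -- the orbits
    let π : Fin d × Equiv.Perm (List (Fin d)) → Quotient (orb A) := Quotient.mk (orb A)
    have hπq : ∀ q z, π (tq A q z) = π z := fun q z =>
      Quotient.sound ((orb A).symm ⟨A.perm q, perm_mem A q, mv_tq A q z⟩)
    obtain ⟨c, hc, hcb⟩ : ∃ c ∈ FF.image π,
        ∑ q, ω q * (((FF.filter fun z => tq A q z ∉ FF).filter fun z => π z = c).card : ℝ) ≤
          ε * ((FF.filter fun z => π z = c).card : ℝ) := by
      apply Finset.exists_le_of_sum_le (hFFne.image π)
      have h1 : ∑ c ∈ FF.image π, ((FF.filter fun z => π z = c).card : ℝ) = (FF.card : ℝ) := by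
        rw [Finset.card_eq_sum_card_image π FF]
        push_cast
        rfl
      have h2 : ∀ q, ∑ c ∈ FF.image π,
          (((FF.filter fun z => tq A q z ∉ FF).filter fun z => π z = c).card : ℝ) =
            ((FF.filter fun z => tq A q z ∉ FF).card : ℝ) := by
        intro q
        rw [Finset.card_eq_sum_card_fiberwise (f := π) (t := FF.image π)
          (s := FF.filter fun z => tq A q z ∉ FF)]
        · push_cast
          rfl
        · intro z hz
          rw [Finset.mem_coe, Finset.mem_filter] at hz
          exact Finset.mem_coe.2 (Finset.mem_image_of_mem π hz.1)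
      rw [Finset.sum_comm, ← Finset.mul_sum, h1]
      calc ∑ q, ∑ c ∈ FF.image π,
            ω q * (((FF.filter fun z => tq A q z ∉ FF).filter fun z => π z = c).card : ℝ)
          = ∑ q, ω q * ((FF.filter fun z => tq A q z ∉ FF).card : ℝ) := by
            apply Finset.sum_congr rfl
            intro q _
            rw [← Finset.mul_sum, h2]
        _ = d * bd A ω F := hbd
        _ ≤ ε * FF.card := by
            rw [hFFcard]
            push_cast
            have := mul_le_mul_of_nonneg_left hFb (Nat.cast_nonneg (α := ℝ) d)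
            linarith
    obtain ⟨z0, hz0, rfl⟩ := Finset.mem_image.1 hc
    set O : Finset (Fin d × Equiv.Perm (List (Fin d))) := FF.filter fun z => π z = π z0 with hO
    have hmv : ∀ z, ∃ s, z ∈ O → s ∈ A.G ∧ Mv s z0 z := by
      intro z
      by_cases hz : z ∈ O
      · rw [hO, Finset.mem_filter] at hz
        obtain ⟨s, hs, hs'⟩ := Quotient.exact hz.2.symm
        exact ⟨s, fun _ => ⟨hs, hs'⟩⟩
      · exact ⟨1, fun h => absurd h hz⟩
    choose φ hφ using hmv
    have hz0O : z0 ∈ O := by
      rw [hO, Finset.mem_filter]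
      exact ⟨hz0, rfl⟩
    have hinj : Set.InjOn φ O := by
      intro z hz z' hz' he
      have h1 := (hφ z hz).2
      have h2 := (hφ z' hz').2
      rw [he] at h1
      exact mv_inj h1 h2
    have hcard : (O.image φ).card = O.card := Finset.card_image_of_injOn hinj
    have hle : F.card ≤ O.card := by
      rw [← hcard]
      apply hmin
      · exact ⟨φ z0, Finset.mem_image_of_mem φ hz0O⟩
      · intro g hg
        obtain ⟨z, hz, rfl⟩ := Finset.mem_image.1 hg
        exact (hφ z hz).1
      · rw [hcard]
        refine le_trans ?_ hcb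
        rw [bd]
        apply Finset.sum_le_sum
        intro q _
        apply mul_le_mul_of_nonneg_left _ (hω q).le
        have h1 : ((O.image φ).filter fun g => A.perm q * g ∉ O.image φ) ⊆
            (((FF.filter fun z => tq A q z ∉ FF).filter fun z => π z = π z0).image φ) := by
          intro g hg
          rw [Finset.mem_filter] at hg
          obtain ⟨z, hz, rfl⟩ := Finset.mem_image.1 hg.1
          apply Finset.mem_image_of_mem
          have hz' := hz
          rw [hO, Finset.mem_filter] at hz'
          rw [Finset.mem_filter, Finset.mem_filter]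
          refine ⟨⟨hz'.1, fun hcon => hg.2 ?_⟩, hz'.2⟩
          have hzO : tq A q z ∈ O := by
            rw [hO, Finset.mem_filter]
            exact ⟨hcon, by rw [hπq, hz'.2]⟩
          have e : A.perm q * φ z = φ (tq A q z) :=
            mv_unique A hLN (A.G.mul_mem (perm_mem A q) (hφ z hz).1) (hφ _ hzO).1
              ((hφ z hz).2.trans (mv_tq A q z)) (hφ _ hzO).2
          rw [e]
          exact Finset.mem_image_of_mem φ hzO
        have h2 := Finset.card_le_card h1
        exact_mod_cast h2.trans Finset.card_image_le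
    -- the best letter
    have hsum : O.card = ∑ x : Fin d, (F.filter fun h => (x, h) ∈ O).card := by
      have e1 : O = FF.filter fun z => z ∈ O := by
        ext z
        constructor
        · intro hz
          have hz' := hz
          rw [hO, Finset.mem_filter] at hz'
          exact Finset.mem_filter.2 ⟨hz'.1, hz⟩
        · intro hz
          exact (Finset.mem_filter.1 hz).2
      calc O.card = (FF.filter fun z => z ∈ O).card := by rw [← e1]
        _ = ∑ x : Fin d, (F.filter fun h => (x, h) ∈ O).card := by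
            rw [Finset.card_filter, hFF, Finset.sum_product]
            apply Finset.sum_congr rfl
            intro x _
            rw [Finset.card_filter]
    obtain ⟨x, hx⟩ : ∃ x : Fin d, F.card ≤ d * (F.filter fun h => (x, h) ∈ O).card := by
      by_contra hcon
      push Not at hcon
      have h1 : ∑ x : Fin d, d * (F.filter fun h => (x, h) ∈ O).card < ∑ x : Fin d, F.card := by
        apply Finset.sum_lt_sum_of_nonempty
        · exact ⟨⟨0, hd⟩, Finset.mem_univ _⟩
        · intro x _
          exact hcon x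
      rw [← Finset.mul_sum, ← hsum] at h1
      simp only [Finset.sum_const, Finset.card_univ, Fintype.card_fin, smul_eq_mul] at h1
      exact absurd (lt_of_mul_lt_mul_left h1 (Nat.zero_le d)) (not_lt.2 hle)
    have hFc : 0 < F.card := Finset.card_pos.2 hF
    have hne : (F.filter fun h => (x, h) ∈ O).Nonempty := by
      rw [← Finset.card_pos]
      rcases Nat.eq_zero_or_pos (F.filter fun h => (x, h) ∈ O).card with h | h
      · rw [h] at hx
        omega
      · exact h
    obtain ⟨h1, hh1⟩ := hne
    rw [Finset.mem_filter] at hh1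
    refine ⟨x, h1, hFG h1 hh1.1, hx.trans (Nat.mul_le_mul_left d (Finset.card_le_card ?_))⟩
    intro h hh
    rw [Finset.mem_filter] at hh ⊢
    refine ⟨hh.1, ?_⟩
    have k1 := hφ _ hh.2
    have k2 := hφ _ hh1.2
    exact ⟨φ (x, h) * (φ (x, h1))⁻¹, A.G.mul_mem k1.1 (A.G.inv_mem k2.1), k2.2.symm.trans k1.2⟩

end Pool.Agent.Helper37.LN2
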